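import Mathlib.LinearAlgebra.BilinearForm.Properties
import Mathlib.LinearAlgebra.Span.Basic
import Mathlib.Tactic.Linarith
import Mathlib.Tactic.FieldSimp
import Mathlib.Tactic.LinearCombination
import Mathlib.Data.Real.Basic

/-!
# The signature argument (case B1 of AB4)

`q` is a symmetric bilinear form on a real vector space with at most one positive direction.
-/

namespace Pool.AB4

variable {V : Type*} [AddCommGroup V] [Module ℝ V]

/-- A symmetric bilinear form with at most one positive direction: the orthogonal complement of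
a vector of positive square is negative semidefinite. -/
structure OnePos (q : V →ₗ[ℝ] V →ₗ[ℝ] ℝ) : Prop where
  symm : ∀ x y, q x y = q y x
  neg : ∀ h, 0 < q h h → ∀ x, q h x = 0 → q x x ≤ 0

/-- Under `OnePos`, an isotropic vector orthogonal to a positive vector lies in the radical. -/
theorem OnePos.radical {q : V →ₗ[ℝ] V →ₗ[ℝ] ℝ} (hq : OnePos q) {h z : V} (hh : 0 < q h h)
    (hz : q h z = 0) (hzz : q z z = 0) (x : V) : q z x = 0 := by
  -- first for `x` orthogonal to `h`
  have key : ∀ y, q h y = 0 → q z y = 0 := by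
    intro y hy
    by_contra hne
    have h1 : ∀ t : ℝ, 2 * t * q z y + q y y ≤ 0 := by
      intro t
      have h2 := hq.neg h hh (t • z + y) (by simp [hz, hy])
      have h3 : q (t • z + y) (t • z + y) = 2 * t * q z y + q y y := by
        simp only [map_add, map_smul, LinearMap.add_apply, LinearMap.smul_apply, smul_eq_mul, hzz]
        rw [hq.symm y z]; ring
      rwa [h3] at h2
    have h4 := h1 ((1 - q y y) / (2 * q z y))
    have h5 : 2 * ((1 - q y y) / (2 * q z y)) * q z y = 1 - q y y := by field_simp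
    rw [h5] at h4
    linarith
  -- general `x`
  have h6 := key (x - (q h x / q h h) • h) (by
    simp only [map_sub, map_smul, smul_eq_mul]
    field_simp
    ring)
  simp only [map_sub, map_smul, smul_eq_mul] at h6
  rw [hq.symm z h, hz, mul_zero, sub_zero] at h6
  exact h6

/-- **The signature argument.** `q` has at most one positive direction, `q(H,H) > 0`,
`q(K,K) = q(K,D) = 0`, `q(K,H) > 0`, `q(D,D) ≥ 0`. Then `q(D,·)` is a multiple of `q(K,·)`. -/
theorem OnePos.prop {q : V →ₗ[ℝ] V →ₗ[ℝ] ℝ} (hq : OnePos q) {H K D : V} (hH : 0 < q H H)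
    (hKK : q K K = 0) (hKD : q K D = 0) (hKH : 0 < q K H) (hDD : 0 ≤ q D D) (x : V) :
    q D x = (q D H / q K H) * q K x := by
  have h1 : q D D = 0 := by
    by_contra hne
    have hpos : 0 < q D D := lt_of_le_of_ne hDD (Ne.symm hne)
    have := hq.radical (h := D) (z := K) hpos (by rw [hq.symm]; exact hKD) hKK H
    linarith
  have h2 : q (D - (q D H / q K H) • K) (D - (q D H / q K H) • K) = 0 := by
    simp only [map_sub, map_smul, LinearMap.sub_apply, LinearMap.smul_apply, smul_eq_mul, h1, hKK, hKD,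
      hq.symm D K]
    ring
  have h3 : q H (D - (q D H / q K H) • K) = 0 := by
    simp only [map_sub, map_smul, smul_eq_mul]
    rw [hq.symm H D, hq.symm H K]
    field_simp
    ring
  have h4 := hq.radical hH h3 h2 x
  simp only [map_sub, map_smul, LinearMap.sub_apply, LinearMap.smul_apply, smul_eq_mul] at h4
  linarith

/-- **Case B1.** `N` = divisor classes, `A` = classes of codimension two on a fourfold, `mul` the
product of divisors, `pair` the pairing of codimension two classes. If the divisor class `D` is such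
that `D . K^2 . H = 0` and `D^2 . K . H ≥ 0` for all ample `H`, then `D . K = c K^2` for the pairing
with every class of codimension two. -/
theorem caseB1 {N A : Type*} [AddCommGroup N] [Module ℝ N] [AddCommGroup A] [Module ℝ A]
    (mul : N →ₗ[ℝ] N →ₗ[ℝ] A) (pair : A →ₗ[ℝ] A →ₗ[ℝ] ℝ)
    (hmc : ∀ x y, mul x y = mul y x)
    (hass : ∀ x y z w, pair (mul x y) (mul z w) = pair (mul x z) (mul y w))
    (Amp : Set N) (hne : Amp.Nonempty) (hspan : Submodule.span ℝ Amp = ⊤) (K D : N)
    (HI : ∀ H ∈ Amp, ∀ h x : N, 0 < pair (mul h h) (mul K H) → pair (mul h x) (mul K H) = 0 →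
      pair (mul x x) (mul K H) ≤ 0)
    (HR : ∀ η : A, (∀ x y, pair η (mul x y) = 0) → pair η η ≤ 0 → ∀ a, pair η a = 0)
    (hHH : ∀ H ∈ Amp, 0 < pair (mul H H) (mul K H))
    (hKKH : ∀ H ∈ Amp, ∀ H' ∈ Amp, 0 < pair (mul K K) (mul H H'))
    (hKKK : ∀ H ∈ Amp, pair (mul K K) (mul K H) = 0)
    (hKKD : ∀ H ∈ Amp, pair (mul K D) (mul K H) = 0)
    (hDD : ∀ H ∈ Amp, 0 ≤ pair (mul D D) (mul K H))
    (hKD : ∀ H ∈ Amp, ∀ H' ∈ Amp, 0 ≤ pair (mul D K) (mul H H')) :
    ∃ c : ℝ, 0 ≤ c ∧ ∀ a, pair (mul D K) a = c * pair (mul K K) a := by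
  -- `q_H`
  have hprop : ∀ H ∈ Amp, ∀ x, pair (mul D x) (mul K H) =
      (pair (mul D H) (mul K H) / pair (mul K H) (mul K H)) * pair (mul K x) (mul K H) := by
    intro H hH x
    obtain ⟨q, hq⟩ : ∃ q : N →ₗ[ℝ] N →ₗ[ℝ] ℝ, ∀ x y, q x y = pair (mul x y) (mul K H) :=
      ⟨LinearMap.mk₂ ℝ (fun x y => pair (mul x y) (mul K H))
        (fun a b c => by simp) (fun r a b => by simp) (fun a b c => by simp) (fun r a b => by simp),
        fun x y => rfl⟩
    have hOP : OnePos q := ⟨fun x y => by rw [hq, hq, hmc], fun h hh x hx => by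
      rw [hq] at hh hx ⊢
      exact HI H hH h x hh hx⟩
    have h1 := hOP.prop (H := H) (K := K) (D := D) (by rw [hq]; exact hHH H hH)
      (by rw [hq]; exact hKKK H hH) (by rw [hq]; exact hKKD H hH)
      (by rw [hq, hass K H K H]; exact hKKH H hH H hH) (by rw [hq]; exact hDD H hH) x
    simpa only [hq] using h1
  -- rewritten: `D . x . K . H = c_H K^2 . x . H`
  obtain ⟨H0, hH0⟩ := hne
  obtain ⟨cc, hcc⟩ : ∃ cc : N → ℝ, cc = fun H => pair (mul D H) (mul K H) / pair (mul K H) (mul K H) :=
    ⟨_, rfl⟩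
  have h2 : ∀ H ∈ Amp, ∀ x, pair (mul D K) (mul x H) = cc H * pair (mul K K) (mul x H) := by
    intro H hH x
    rw [hass D K x H, hass K K x H, hcc]
    exact hprop H hH x
  have h3 : ∀ H ∈ Amp, cc H = cc H0 := by
    intro H hH
    have e1 := h2 H hH H0
    have e2 := h2 H0 hH0 H
    rw [hmc H H0] at e2
    have e3 := hKKH H0 hH0 H hH
    have e4 : cc H * pair (mul K K) (mul H0 H) = cc H0 * pair (mul K K) (mul H0 H) := e1.symm.trans e2
    exact mul_right_cancel₀ e3.ne' e4
  have h4 : ∀ x y, pair (mul D K) (mul x y) = cc H0 * pair (mul K K) (mul x y) := by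
    intro x y
    have hy : y ∈ Submodule.span ℝ Amp := by rw [hspan]; trivial
    refine Submodule.span_induction (p := fun y _ => pair (mul D K) (mul x y) =
      cc H0 * pair (mul K K) (mul x y)) ?_ ?_ ?_ ?_ hy
    · intro H hH
      rw [h2 H hH x, h3 H hH]
    · simp
    · intro a b _ _ ha hb
      simp only [map_add, ha, hb]
      ring
    · intro r a _ ha
      simp only [map_smul, smul_eq_mul, ha]
      ring
  have hc0 : 0 ≤ cc H0 := by
    rw [hcc]
    have e1 := hKD H0 hH0 H0 hH0
    rw [hass D K H0 H0] at e1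
    have e2 := hKKH H0 hH0 H0 hH0
    rw [hass K K H0 H0] at e2
    exact div_nonneg e1 e2.le
  refine ⟨cc H0, hc0, ?_⟩
  have h5 : ∀ x y, pair (mul D K - cc H0 • mul K K) (mul x y) = 0 := by
    intro x y
    simp only [map_sub, map_smul, LinearMap.sub_apply, LinearMap.smul_apply, smul_eq_mul, h4]
    ring
  have h6 : pair (mul D K - cc H0 • mul K K) (mul D K - cc H0 • mul K K) = 0 := by
    have e1 := h5 D K
    have e2 := h5 K K
    rw [map_sub (pair _), map_smul (pair _), smul_eq_mul, e1, e2]
    ring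
  intro a
  have h7 := HR _ h5 h6.le a
  simp only [map_sub, map_smul, LinearMap.sub_apply, LinearMap.smul_apply, smul_eq_mul] at h7
  linarith

end Pool.AB4
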